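import Pool.Agent.VTP.StmtsA

set_option autoImplicit false

namespace Pool.Agent.VTP.H3

open Finset Pool.Agent.ZOL Pool.Agent.VTP

theorem pcg : PcgStmt := by
  intro V σ σ' s s' i i' hσ hs hi
  classical
  have key : ∀ S ⊆ V, (NI i S ↔ NI i' S) ∧ NN V σ s i S = NN V σ' s' i' S := by
    intro S hS
    refine ⟨?_, ?_⟩
    · unfold NI
      constructor
      · intro h c hc d hd hcd
        exact h c hc d hd ((hi c (hS hc) d (hS hd)).2 hcd)
      · intro h c hc d hd hcd
        exact h c hc d hd ((hi c (hS hc) d (hS hd)).1 hcd)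
    · unfold NN
      have h1 : (V.filter (fun d => d ∉ S ∧ ∀ c ∈ S, ¬ i c d))
          = V.filter (fun d => d ∉ S ∧ ∀ c ∈ S, ¬ i' c d) := by
        apply Finset.filter_congr
        intro d hd
        constructor
        · rintro ⟨ha, hb⟩
          exact ⟨ha, fun c hc hcd => hb c hc ((hi c (hS hc) d hd).2 hcd)⟩
        · rintro ⟨ha, hb⟩
          exact ⟨ha, fun c hc hcd => hb c hc ((hi c (hS hc) d hd).1 hcd)⟩
      have h2 : ∑ d ∈ V.filter (fun d => d ∉ S ∧ ∀ c ∈ S, ¬ i' c d), σ d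
          = ∑ d ∈ V.filter (fun d => d ∉ S ∧ ∀ c ∈ S, ¬ i' c d), σ' d :=
        Finset.sum_congr rfl (fun d hd => hσ d (Finset.mem_filter.1 hd).1)
      have h3 : ∑ c ∈ S, σ c = ∑ c ∈ S, σ' c := Finset.sum_congr rfl (fun d hd => hσ d (hS hd))
      have h4 : ∑ d ∈ V, s d = ∑ d ∈ V, s' d := Finset.sum_congr rfl (fun d hd => hs d hd)
      rw [h1, h2, h3, h4]
  refine ⟨?_, key⟩
  intro R _ q
  unfold PP
  have h5 : V.powerset.filter (fun S => NI i S) = V.powerset.filter (fun S => NI i' S) := by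
    apply Finset.filter_congr
    intro S hS
    exact (key S (Finset.mem_powerset.1 hS)).1
  rw [h5]
  apply Finset.sum_congr rfl
  intro S hS
  have hSV : S ⊆ V := Finset.mem_powerset.1 (Finset.mem_filter.1 hS).1
  rw [(key S hSV).2]
  congr 1
  apply Finset.prod_congr rfl
  intro c hc
  unfold xx
  rw [hσ c (hSV hc), hs c (hSV hc)]

end Pool.Agent.VTP.H3
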